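import Pool.Agent.Lib.MP_f05b2f_co.UB.Upper
import Pool.Agent.Lib.MP_f05b2f_co.Lex

/-!
Recursion for the sets `L_σ(α)` and `R_σ(β)`: slices in the direction of the coordinate `σ 0`.
-/

open Finset

namespace DKW

namespace UB

section uniq

variable {n : ℕ} {k : Fin n → ℕ} {r : Box k → Box k → Prop}

theorem at_eq {x y : Box k} {a b : Fin n} (h : a = b) (hb : x b = y b) : x a = y a := by
  subst h; exact hb

theorem at_lt {x y : Box k} {a b : Fin n} (h : a = b) (hb : x b < y b) : x a < y a := by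
  subst h; exact hb

theorem card_box {n : ℕ} (k : Fin n → ℕ) : Fintype.card (Box k) = ∏ i, k i := by
  rw [Fintype.card_pi]
  exact Finset.prod_congr rfl fun i _ => Fintype.card_fin _

theorem initSeg_eq (hr : Good r) {T : Finset (Box k)} {a : ℕ} (ha : #T = a)
    (hT : ∀ y ∈ T, ∀ x, r x y → x ∈ T) : initSeg r a = T := by
  classical
  subst ha
  have h1 : T ⊆ initSeg r #T := by
    intro y hy
    rw [mem_initSeg, rk]
    refine Finset.card_lt_card ⟨fun x hx => ?_, fun hcon => ?_⟩
    · exact hT y hy x (by simpa using hx)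
    · have := hcon hy
      exact hr.irrefl y (by simpa using this)
  exact (Finset.eq_of_subset_of_card_le h1 (card_initSeg hr (Finset.card_le_univ _)).le).symm

theorem initSeg_zero : initSeg r 0 = ∅ := by
  ext x
  rw [mem_initSeg]
  simp

theorem initSeg_full (hr : Good r) : initSeg r (∏ i, k i) = univ :=
  initSeg_eq hr (by rw [Finset.card_univ, card_box]) fun _ _ _ _ => Finset.mem_univ _

end uniq

section tail

variable {n : ℕ}

/-- the permutation of the remaining coordinates -/
def tail (σ : Equiv.Perm (Fin (n + 1))) : Equiv.Perm (Fin n) :=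
  ((finSuccAboveEquiv 0).trans (σ.subtypeEquiv (p := fun a => a ≠ 0) (q := fun b => b ≠ σ 0)
    fun _ => (σ.injective.ne_iff).symm)).trans (finSuccAboveEquiv (σ 0)).symm

theorem tail_spec (σ : Equiv.Perm (Fin (n + 1))) (t : Fin n) :
    (σ 0).succAbove (tail σ t) = σ t.succ := by
  have h := (finSuccAboveEquiv (σ 0)).apply_symm_apply
    ((σ.subtypeEquiv (p := fun a => a ≠ 0) (q := fun b => b ≠ σ 0)
      fun _ => (σ.injective.ne_iff).symm) (finSuccAboveEquiv 0 t))
  have h2 := congrArg Subtype.val h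
  rw [finSuccAboveEquiv_apply] at h2
  exact h2

end tail

section cases

variable {n : ℕ} {k : Fin (n + 1) → ℕ}

theorem lex_cases {σ : Equiv.Perm (Fin (n + 1))} {x y : Box k} (h : lexLT σ x y) :
    x (σ 0) < y (σ 0) ∨
      (x (σ 0) = y (σ 0) ∧ lexLT (tail σ) (rem (σ 0) x) (rem (σ 0) y)) := by
  obtain ⟨j, h1, h2⟩ := h
  rcases Fin.eq_zero_or_eq_succ j with rfl | ⟨t, rfl⟩
  · exact Or.inl h2
  · refine Or.inr ⟨h1 0 (Fin.succ_pos t), t, fun j' hj' => ?_, ?_⟩
    · exact at_eq (x := x) (y := y) (tail_spec σ j') (h1 j'.succ (Fin.succ_lt_succ_iff.2 hj'))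
    · exact at_lt (x := x) (y := y) (tail_spec σ t) h2

theorem rev_cases {σ : Equiv.Perm (Fin (n + 1))} {x y : Box k} (h : revLT σ x y) :
    revLT (tail σ) (rem (σ 0) x) (rem (σ 0) y) ∨
      (rem (σ 0) x = rem (σ 0) y ∧ x (σ 0) < y (σ 0)) := by
  obtain ⟨j, h1, h2⟩ := h
  rcases Fin.eq_zero_or_eq_succ j with rfl | ⟨t, rfl⟩
  · refine Or.inr ⟨?_, h2⟩
    funext l
    obtain ⟨t, rfl⟩ := (tail σ).surjective l
    exact at_eq (x := x) (y := y) (tail_spec σ t) (h1 t.succ (Fin.succ_pos t))
  · refine Or.inl ⟨t, fun j' hj' => ?_, ?_⟩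
    · exact at_eq (x := x) (y := y) (tail_spec σ j') (h1 j'.succ (Fin.succ_lt_succ_iff.2 hj'))
    · exact at_lt (x := x) (y := y) (tail_spec σ t) h2

/-- the slices of `L_σ(p m + s)` -/
noncomputable def SA (k : Fin (n + 1) → ℕ) (σ : Equiv.Perm (Fin (n + 1))) (p s : ℕ) :
    Fin (k (σ 0)) → Finset (Rest k (σ 0)) := fun j =>
  if (j : ℕ) < p then univ else if (j : ℕ) = p then L _ (tail σ) s else ∅

/-- the slices of `R_σ(q k + r)` -/
noncomputable def SB (k : Fin (n + 1) → ℕ) (σ : Equiv.Perm (Fin (n + 1))) (q r : ℕ) :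
    Fin (k (σ 0)) → Finset (Rest k (σ 0)) := fun j =>
  R _ (tail σ) (if (j : ℕ) < r then q + 1 else q)

variable {σ : Equiv.Perm (Fin (n + 1))} {m p s q r : ℕ}

theorem L_rec (hm : ∏ j, k ((σ 0).succAbove j) = m) (hs : s ≤ m)
    (hp : p ≤ k (σ 0)) (hp2 : p = k (σ 0) → s = 0) :
    L k σ (p * m + s) = ofSl (σ 0) (SA k σ p s) := by
  classical
  have cA : ∀ j, #(SA k σ p s j) =
      (if (j : ℕ) < p then m else 0) + if (j : ℕ) = p then s else 0 := by
    intro j
    rw [SA]
    split_ifs with h1 h2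
    · omega
    · rw [Finset.card_univ, card_box, hm]; rfl
    · rw [L, card_initSeg (good_lex _) (by rw [card_box, hm]; exact hs)]; omega
    · simp
  refine initSeg_eq (good_lex σ) ?_ ?_
  · rw [card_ofSl, Finset.sum_congr rfl fun j _ => cA j, Finset.sum_add_distrib, sum_if_lt,
      sum_if_eq, min_eq_right hp]
    split_ifs with h
    · rfl
    · rw [hp2 (by omega)]
  · intro y hy x hxy
    rw [mem_ofSl, SA] at hy ⊢
    rcases lex_cases hxy with h | ⟨h, h'⟩
    · have h2 : ((x (σ 0)) : ℕ) < y (σ 0) := h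
      split_ifs at hy with h3 h4
      · rw [if_pos (by omega)]; exact Finset.mem_univ _
      · rw [if_pos (by omega)]; exact Finset.mem_univ _
      · simp at hy
    · rw [h]
      split_ifs at hy ⊢ with h3 h4
      · exact Finset.mem_univ _
      · exact initSeg_closed (good_lex _) hy h'
      · simp at hy

theorem R_rec (hm : ∏ j, k ((σ 0).succAbove j) = m) (hr : r < k (σ 0)) (hq : q ≤ m)
    (hq2 : 0 < r → q < m) :
    R k σ (q * k (σ 0) + r) = ofSl (σ 0) (SB k σ q r) := by
  classical
  have cB : ∀ j, #(SB k σ q r j) = q + if (j : ℕ) < r then 1 else 0 := by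
    intro j
    rw [SB, R]
    split_ifs with h
    · rw [card_initSeg (good_rev _)]
      rw [card_box, hm]
      have := hq2 (by omega)
      omega
    · rw [card_initSeg (good_rev _)]
      · rfl
      · rw [card_box, hm]
        exact hq
  refine initSeg_eq (good_rev σ) ?_ ?_
  · rw [card_ofSl, Finset.sum_congr rfl fun j _ => cB j, Finset.sum_add_distrib, sum_if_lt,
      min_eq_right hr.le, Finset.sum_const, Finset.card_univ, Fintype.card_fin, smul_eq_mul,
      mul_one, mul_comm]
  · intro y hy x hxy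
    rw [mem_ofSl, SB, R, mem_initSeg] at hy ⊢
    rcases rev_cases hxy with h | ⟨h, h'⟩
    · have h1 := rk_lt (good_rev (k := fun j => k ((σ 0).succAbove j)) (tail σ)) h
      split_ifs at hy ⊢ <;> omega
    · rw [h]
      have h2 : ((x (σ 0)) : ℕ) < y (σ 0) := h'
      split_ifs at hy ⊢ <;> omega

theorem inter_rec (hm : ∏ j, k ((σ 0).succAbove j) = m) (hs : s ≤ m)
    (hp : p ≤ k (σ 0)) (hp2 : p = k (σ 0) → s = 0) (hr : r < k (σ 0)) (hq : q ≤ m)
    (hq2 : 0 < r → q < m) :
    #(L k σ (p * m + s) ∩ R k σ (q * k (σ 0) + r)) =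
      (p * q + min p r) + #(L (fun j => k ((σ 0).succAbove j)) (tail σ) s ∩
        R _ (tail σ) (q + if p < r then 1 else 0)) := by
  classical
  rw [L_rec hm hs hp hp2, R_rec hm hr hq hq2, ofSl_inter, card_ofSl]
  have cAB : ∀ j : Fin (k (σ 0)), #(SA k σ p s j ∩ SB k σ q r j) =
      ((if (j : ℕ) < p then q else 0) + (if (j : ℕ) < min p r then 1 else 0)) +
      if (j : ℕ) = p then #(L (fun j => k ((σ 0).succAbove j)) (tail σ) s ∩
        R _ (tail σ) (q + if p < r then 1 else 0)) else 0 := by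
    intro j
    by_cases h1 : (j : ℕ) < p
    · have e1 : SA k σ p s j = univ := by rw [SA]; simp [h1]
      rw [e1, Finset.univ_inter, if_pos h1, if_neg (by omega : ¬ (j : ℕ) = p), SB, R,
        card_initSeg (good_rev _)]
      · split_ifs <;> omega
      · rw [card_box, hm]
        split_ifs
        · have := hq2 (by omega)
          omega
        · exact hq
    · by_cases h2 : (j : ℕ) = p
      · have e1 : SA k σ p s j = L _ (tail σ) s := by rw [SA]; simp [h2]
        have e2 : SB k σ q r j = R _ (tail σ) (q + if p < r then 1 else 0) := by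
          rw [SB, h2]
          congr 1
          split_ifs <;> rfl
        rw [e1, e2, if_neg h1, if_pos h2, if_neg (by omega : ¬ (j : ℕ) < min p r), add_zero,
          zero_add]
      · have e1 : SA k σ p s j = ∅ := by rw [SA]; simp [h1, h2]
        rw [e1, if_neg h1, if_neg h2, if_neg (by omega : ¬ (j : ℕ) < min p r)]
        simp
  rw [Finset.sum_congr rfl fun j _ => cAB j, Finset.sum_add_distrib,
    Finset.sum_add_distrib, sum_if_lt, sum_if_lt, sum_if_eq, min_eq_right hp]
  have e1 : min (k (σ 0)) (min p r) = min p r := by omega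
  rw [e1, mul_one]
  split_ifs with h
  · rfl
  · rfl
  · rw [hp2 (by omega), L, initSeg_zero]; simp
  · rw [hp2 (by omega), L, initSeg_zero]; simp

end cases

end UB

end DKW
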