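import Pool.Agent.Lib.MP_f05b2f_co.Comp

/-!
Slices of subsets of a product of chains; order ideals of every size.
-/

open Finset

namespace DKW

namespace UB

section poset

variable {X : Type} [Fintype X] [DecidableEq X] [PartialOrder X]

theorem exists_succ {T : Finset X} (hT : ∀ x ∈ T, ∀ y, y ≤ x → y ∈ T)
    (h : #T < Fintype.card X) :
    ∃ T' : Finset X, T ⊆ T' ∧ #T' = #T + 1 ∧ ∀ x ∈ T', ∀ y, y ≤ x → y ∈ T' := by
  classical
  have hne : (Tᶜ).Nonempty := by
    rw [← Finset.card_pos, Finset.card_compl]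
    omega
  obtain ⟨x, hx⟩ := Finset.exists_minimal hne
  have hxT : x ∉ T := by simpa using hx.1
  refine ⟨insert x T, Finset.subset_insert _ _, Finset.card_insert_of_notMem hxT, ?_⟩
  intro z hz y hy
  rcases Finset.mem_insert.1 hz with rfl | hz
  · by_cases hyT : y ∈ T
    · exact Finset.mem_insert_of_mem hyT
    · have h1 := hx.2 (y := y) (by simpa using hyT) hy
      rw [le_antisymm hy h1]
      exact Finset.mem_insert_self _ _
  · exact Finset.mem_insert_of_mem (hT z hz y hy)

theorem exists_pred {T : Finset X} (hT : ∀ x ∈ T, ∀ y, y ≤ x → y ∈ T) (h : 0 < #T) :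
    ∃ T' : Finset X, T' ⊆ T ∧ #T' + 1 = #T ∧ ∀ x ∈ T', ∀ y, y ≤ x → y ∈ T' := by
  classical
  obtain ⟨x, hx⟩ := Finset.exists_maximal (Finset.card_pos.1 h)
  refine ⟨T.erase x, Finset.erase_subset _ _, Finset.card_erase_add_one hx.1, ?_⟩
  intro z hz y hy
  rw [Finset.mem_erase] at hz ⊢
  refine ⟨?_, hT z hz.2 y hy⟩
  rintro rfl
  exact hz.1 (le_antisymm (hx.2 hz.2 hy) hy)

theorem exists_card (a : ℕ) (ha : a ≤ Fintype.card X) :
    ∃ T : Finset X, #T = a ∧ ∀ x ∈ T, ∀ y, y ≤ x → y ∈ T := by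
  induction a with
  | zero => exact ⟨∅, rfl, by simp⟩
  | succ a ih =>
    obtain ⟨T, h1, h2⟩ := ih (by omega)
    obtain ⟨T', -, h3, h4⟩ := exists_succ h2 (by omega)
    exact ⟨T', by omega, h4⟩

end poset

section slices

variable {n : ℕ} {k : Fin (n + 1) → ℕ} (i : Fin (n + 1))

/-- the box without coordinate `i` -/
abbrev Rest (k : Fin (n + 1) → ℕ) (i : Fin (n + 1)) : Type := Box fun j => k (i.succAbove j)

/-- forget coordinate `i` -/
def rem (x : Box k) : Rest k i := fun j => x (i.succAbove j)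

/-- the set with the given slices -/
def ofSl (S : Fin (k i) → Finset (Rest k i)) : Finset (Box k) :=
  univ.filter fun x => rem i x ∈ S (x i)

/-- the slices of a set -/
def sl (C : Finset (Box k)) (j : Fin (k i)) : Finset (Rest k i) :=
  univ.filter fun z => i.insertNth j z ∈ C

variable {i}

theorem mem_ofSl {S : Fin (k i) → Finset (Rest k i)} {x : Box k} :
    x ∈ ofSl i S ↔ rem i x ∈ S (x i) := by simp [ofSl]

theorem mem_sl {C : Finset (Box k)} {j : Fin (k i)} {z : Rest k i} :
    z ∈ sl i C j ↔ i.insertNth j z ∈ C := by simp [sl]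

theorem rem_insertNth (j : Fin (k i)) (z : Rest k i) :
    rem i (i.insertNth j z : Box k) = z := by
  funext l
  simp [rem]

theorem insertNth_rem (x : Box k) : (i.insertNth (x i) (rem i x) : Box k) = x :=
  Fin.insertNth_self_removeNth i x

theorem ofSl_sl (C : Finset (Box k)) : ofSl i (sl i C) = C := by
  ext x
  rw [mem_ofSl, mem_sl, insertNth_rem]

theorem card_ofSl (S : Fin (k i) → Finset (Rest k i)) : #(ofSl i S) = ∑ j, #(S j) := by
  classical
  rw [ofSl, Finset.card_filter]
  rw [← (Fin.insertNthEquiv (fun j => Fin (k j)) i).sum_comp, Fintype.sum_prod_type]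
  refine Finset.sum_congr rfl fun j _ => ?_
  rw [Finset.card_eq_sum_ones, ← Finset.sum_filter]
  have : (univ.filter fun z : Rest k i => rem i ((Fin.insertNthEquiv (fun j => Fin (k j)) i) (j, z)) ∈
      S ((Fin.insertNthEquiv (fun j => Fin (k j)) i) (j, z) i)) = S j := by
    ext z
    have h1 : ((Fin.insertNthEquiv (fun j => Fin (k j)) i) (j, z) : Box k) = i.insertNth j z := rfl
    rw [Finset.mem_filter, h1, rem_insertNth, Fin.insertNth_apply_same]
    simp
  rw [this]

theorem ofSl_inter (S T : Fin (k i) → Finset (Rest k i)) :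
    ofSl i S ∩ ofSl i T = ofSl i fun j => S j ∩ T j := by
  ext x
  simp only [Finset.mem_inter, mem_ofSl]

theorem card_eq_sum_sl (C : Finset (Box k)) : #C = ∑ j, #(sl i C j) := by
  conv_lhs => rw [← ofSl_sl (i := i) C, card_ofSl]

theorem sl_inter (C D : Finset (Box k)) (j : Fin (k i)) : sl i (C ∩ D) j = sl i C j ∩ sl i D j := by
  ext z
  simp only [Finset.mem_inter, mem_sl]

theorem isDown_ofSl {S : Fin (k i) → Finset (Rest k i)} (h1 : ∀ j, IsDown (S j))
    (h2 : ∀ j l, j ≤ l → S l ⊆ S j) : IsDown (ofSl i S) := by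
  intro x hx y hy
  rw [mem_ofSl] at hx ⊢
  exact h1 _ _ (h2 _ _ (hy i) hx) _ fun l => hy _

theorem insertNth_mono {j l : Fin (k i)} {y z : Rest k i} (h1 : j ≤ l) (h2 : y ≤ z) :
    (i.insertNth j y : Box k) ≤ i.insertNth l z := by
  intro t
  rcases Fin.eq_self_or_eq_succAbove i t with rfl | ⟨t, rfl⟩
  · simpa using h1
  · simpa using h2 t

theorem isDown_sl {C : Finset (Box k)} (h : IsDown C) (j : Fin (k i)) : IsDown (sl i C j) := by
  intro z hz y hy
  rw [mem_sl] at hz ⊢
  exact h _ hz _ (insertNth_mono le_rfl hy)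

theorem sl_anti {C : Finset (Box k)} (h : IsDown C) {j l : Fin (k i)} (hjl : j ≤ l) :
    sl i C l ⊆ sl i C j := by
  intro z hz
  rw [mem_sl] at hz ⊢
  exact h _ hz _ (insertNth_mono hjl le_rfl)

end slices

end UB

end DKW
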