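import Pool.Agent.Lib.MP_f05b2f_co.UB.Main

/-!
The case of equality in `|A| |B| ≤ |M| |A ∧ B|`.
-/

open Finset
open scoped FinsetFamily

namespace DKW

namespace UB

section cyl

variable {n : ℕ} {k : Fin n → ℕ}

/-- the two halves of a point -/
def halves (k : Fin n → ℕ) (S : Finset (Fin n)) :
    Box k ≃ ((i : {i // i ∈ S}) → Fin (k i)) × ((i : {i // ¬ i ∈ S}) → Fin (k i)) :=
  Equiv.piEquivPiSubtypeProd (fun i => i ∈ S) (fun i => Fin (k i))

theorem card_fst (S : Finset (Fin n)) :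
    Fintype.card ((i : {i // i ∈ S}) → Fin (k i)) = ∏ i ∈ S, k i := by
  rw [Fintype.card_pi, Finset.prod_subtype S (p := fun i => i ∈ S) (fun _ => Iff.rfl)]
  exact Finset.prod_congr rfl fun i _ => Fintype.card_fin _

/-- `A` does not depend on the coordinate `i` -/
def Indep (A : Finset (Box k)) (i : Fin n) : Prop :=
  ∀ x ∈ A, ∀ t : Fin (k i), Function.update x i t ∈ A

theorem indep_all {A : Finset (Box k)} (S : Finset (Fin n)) (h : ∀ i ∈ S, Indep A i) :
    ∀ x ∈ A, ∀ y : Box k, (∀ i, i ∉ S → y i = x i) → y ∈ A := by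
  classical
  induction S using Finset.induction_on with
  | empty =>
    intro x hx y hy
    have : y = x := funext fun i => hy i (by simp)
    rwa [this]
  | insert i S hi ih =>
    intro x hx y hy
    refine ih (fun j hj => h j (Finset.mem_insert_of_mem hj)) (Function.update x i (y i))
      (h i (Finset.mem_insert_self _ _) x hx (y i)) y fun j hj => ?_
    by_cases hji : j = i
    · subst hji
      rw [Function.update_self]
    · rw [Function.update_of_ne hji]
      exact hy j (by simp [hji, hj])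

theorem dvd_fst {A : Finset (Box k)} (S : Finset (Fin n)) (h : ∀ i ∈ S, Indep A i) :
    ∏ i ∈ S, k i ∣ #A := by
  classical
  have h1 : #A = #((univ : Finset ((i : {i // i ∈ S}) → Fin (k i))) ×ˢ
      A.image fun x => (halves k S x).2) := by
    refine Finset.card_equiv (halves k S) fun x => ?_
    rw [Finset.mem_product]
    refine ⟨fun hx => ⟨Finset.mem_univ _, Finset.mem_image_of_mem _ hx⟩, fun hx => ?_⟩
    obtain ⟨y, hy, hyx⟩ := Finset.mem_image.1 hx.2
    refine indep_all S h y hy x fun i hi => ?_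
    exact (congrFun hyx ⟨i, hi⟩).symm
  rw [h1, Finset.card_product, Finset.card_univ, card_fst]
  exact dvd_mul_right _ _

theorem dvd_snd {B : Finset (Box k)} (S : Finset (Fin n)) (h : ∀ i, i ∉ S → Indep B i) :
    ∏ i ∈ Sᶜ, k i ∣ #B := by
  classical
  exact dvd_fst Sᶜ fun i hi => h i (Finset.mem_compl.1 hi)

end cyl

section cheb

/-- Chebyshev's identity -/
theorem cheb {K : ℕ} (a b : Fin K → ℤ) :
    2 * (K * ∑ j, a j * b j - (∑ j, a j) * ∑ j, b j) =
      ∑ j, ∑ l, (a j - a l) * (b j - b l) := by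
  have h1 : ∀ j, ∑ l, (a j - a l) * (b j - b l) =
      K * (a j * b j) - a j * ∑ l, b l - b j * ∑ l, a l + ∑ l, a l * b l := by
    intro j
    have : ∀ l, (a j - a l) * (b j - b l) = a j * b j - a j * b l - b j * a l + a l * b l := by
      intro l; ring
    rw [Finset.sum_congr rfl fun l _ => this l, Finset.sum_add_distrib, Finset.sum_sub_distrib,
      Finset.sum_sub_distrib, Finset.sum_const, Finset.card_univ, Fintype.card_fin, ← Finset.mul_sum,
      ← Finset.mul_sum, nsmul_eq_mul]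
  rw [Finset.sum_congr rfl fun j _ => h1 j, Finset.sum_add_distrib, Finset.sum_sub_distrib,
    Finset.sum_sub_distrib, ← Finset.mul_sum, ← Finset.sum_mul, ← Finset.sum_mul, Finset.sum_const,
    Finset.card_univ, Fintype.card_fin, nsmul_eq_mul]
  ring

theorem cheb_eq {K : ℕ} {a b : Fin K → ℤ} (ha : ∀ j l, j ≤ l → a l ≤ a j)
    (hb : ∀ j l, j ≤ l → b l ≤ b j) (h : K * ∑ j, a j * b j ≤ (∑ j, a j) * ∑ j, b j)
    (j l : Fin K) : (a j - a l) * (b j - b l) = 0 := by
  have hnn : ∀ j l, 0 ≤ (a j - a l) * (b j - b l) := by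
    intro j l
    rcases le_total j l with h | h
    · exact mul_nonneg (sub_nonneg.2 (ha _ _ h)) (sub_nonneg.2 (hb _ _ h))
    · exact mul_nonneg_of_nonpos_of_nonpos (sub_nonpos.2 (ha _ _ h)) (sub_nonpos.2 (hb _ _ h))
  have h0 : ∑ j, ∑ l, (a j - a l) * (b j - b l) = 0 := by
    refine le_antisymm ?_ (Finset.sum_nonneg fun j _ => Finset.sum_nonneg fun l _ => hnn j l)
    rw [← cheb]
    linarith
  have h1 := (Finset.sum_eq_zero_iff_of_nonneg
    (fun j _ => Finset.sum_nonneg fun l _ => hnn j l)).1 h0 j (Finset.mem_univ _)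
  exact (Finset.sum_eq_zero_iff_of_nonneg (fun l _ => hnn j l)).1 h1 l (Finset.mem_univ _)

theorem cheb_le {K : ℕ} {a b : Fin K → ℤ} (ha : ∀ j l, j ≤ l → a l ≤ a j)
    (hb : ∀ j l, j ≤ l → b l ≤ b j) : (∑ j, a j) * ∑ j, b j ≤ K * ∑ j, a j * b j := by
  have hnn : ∀ j l, 0 ≤ (a j - a l) * (b j - b l) := by
    intro j l
    rcases le_total j l with h | h
    · exact mul_nonneg (sub_nonneg.2 (ha _ _ h)) (sub_nonneg.2 (hb _ _ h))
    · exact mul_nonneg_of_nonpos_of_nonpos (sub_nonpos.2 (ha _ _ h)) (sub_nonpos.2 (hb _ _ h))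
  have h0 : 0 ≤ ∑ j, ∑ l, (a j - a l) * (b j - b l) :=
    Finset.sum_nonneg fun j _ => Finset.sum_nonneg fun l _ => hnn j l
  rw [← cheb] at h0
  linarith

end cheb

section dir

variable {n : ℕ} {k : Fin (n + 1) → ℕ}

theorem indep_of_sl {A : Finset (Box k)} (hA : IsDown A) (i : Fin (n + 1))
    (h : ∀ j l : Fin (k i), #(sl i A j) = #(sl i A l)) : Indep A i := by
  intro x hx t
  have h1 : ∀ j l : Fin (k i), sl i A j ⊆ sl i A l := by
    intro j l
    rcases le_total j l with hjl | hjl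
    · have := Finset.eq_of_subset_of_card_le (sl_anti hA hjl) (h j l).le
      rw [this]
    · exact sl_anti hA hjl
  have h2 : rem i x ∈ sl i A (x i) := by
    rw [mem_sl, insertNth_rem]
    exact hx
  have h3 := h1 _ t h2
  rw [mem_sl] at h3
  have h4 : (i.insertNth t (rem i x) : Box k) = Function.update x i t :=
    Fin.insertNth_removeNth i t x
  rwa [h4] at h3

theorem dir {A B : Finset (Box k)} (hA : IsDown A) (hB : IsDown B) (hk : ∀ i, 0 < k i)
    (h : (∏ i, k i) * #(A ∩ B) ≤ #A * #B) (i : Fin (n + 1)) : Indep A i ∨ Indep B i := by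
  classical
  set m := ∏ j : Fin n, k (i.succAbove j) with hm
  have hprod : ∏ i, k i = k i * m := Fin.prod_univ_succAbove k i
  have hm0 : 0 < m := Finset.prod_pos fun j _ => hk _
  have h1 : ∀ j, #(sl i A j) * #(sl i B j) ≤ m * #(sl i (A ∩ B) j) := by
    intro j
    rw [sl_inter]
    exact lower_inter (isDown_sl hA j) (isDown_sl hB j)
  have h2 : k i * ∑ j, #(sl i A j) * #(sl i B j) ≤ (∑ j, #(sl i A j)) * ∑ j, #(sl i B j) := by
    rw [← card_eq_sum_sl, ← card_eq_sum_sl]
    calc k i * ∑ j, #(sl i A j) * #(sl i B j) ≤ k i * ∑ j, m * #(sl i (A ∩ B) j) := by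
          refine Nat.mul_le_mul_left _ (Finset.sum_le_sum fun j _ => h1 j)
      _ = (∏ i, k i) * #(A ∩ B) := by
          rw [← Finset.mul_sum, ← card_eq_sum_sl, hprod]
          ring
      _ ≤ #A * #B := h
  have ha : ∀ j l : Fin (k i), j ≤ l → #(sl i A l) ≤ #(sl i A j) := fun j l hjl =>
    Finset.card_le_card (sl_anti hA hjl)
  have hb : ∀ j l : Fin (k i), j ≤ l → #(sl i B l) ≤ #(sl i B j) := fun j l hjl =>
    Finset.card_le_card (sl_anti hB hjl)
  have h3 := cheb_eq (a := fun j => (#(sl i A j) : ℤ)) (b := fun j => (#(sl i B j) : ℤ))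
    (fun j l hjl => by exact_mod_cast ha j l hjl) (fun j l hjl => by exact_mod_cast hb j l hjl)
    (by exact_mod_cast h2)
  -- first and last slice
  set j0 : Fin (k i) := ⟨0, hk i⟩ with hj0
  set j1 : Fin (k i) := ⟨k i - 1, by have := hk i; omega⟩ with hj1
  have hj0' : ∀ j, j0 ≤ j := fun j => Nat.zero_le _
  have hj1' : ∀ j, j ≤ j1 := fun j => by
    have := j.isLt
    change (j : ℕ) ≤ k i - 1
    omega
  rcases mul_eq_zero.1 (h3 j0 j1) with h4 | h4
  · left
    refine indep_of_sl hA i ?_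
    have h5 : #(sl i A j0) = #(sl i A j1) := by exact_mod_cast sub_eq_zero.1 h4
    have h6 : ∀ j, #(sl i A j) = #(sl i A j0) := fun j =>
      le_antisymm (ha _ _ (hj0' j)) (h5.trans_le (ha _ _ (hj1' j)))
    intro j l
    rw [h6 j, h6 l]
  · right
    refine indep_of_sl hB i ?_
    have h5 : #(sl i B j0) = #(sl i B j1) := by exact_mod_cast sub_eq_zero.1 h4
    have h6 : ∀ j, #(sl i B j) = #(sl i B j0) := fun j =>
      le_antisymm (hb _ _ (hj0' j)) (h5.trans_le (hb _ _ (hj1' j)))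
    intro j l
    rw [h6 j, h6 l]

end dir

theorem dvd_of_eq {n : ℕ} {k : Fin n → ℕ} (hk : ∀ i, 0 < k i) {A B : Finset (Box k)}
    (hA : IsDown A) (hB : IsDown B) (h : (∏ i, k i) * #(A ∩ B) ≤ #A * #B) :
    ∃ S : Finset (Fin n), ∏ i ∈ S, k i ∣ #A ∧ ∏ i ∈ Sᶜ, k i ∣ #B := by
  classical
  have h1 : ∀ i, Indep A i ∨ Indep B i := by
    intro i
    cases n with
    | zero => exact i.elim0
    | succ n => exact dir hA hB hk h i
  refine ⟨univ.filter fun i => Indep A i, dvd_fst _ fun i hi => ?_, dvd_snd _ fun i hi => ?_⟩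
  · exact (Finset.mem_filter.1 hi).2
  · rcases h1 i with h2 | h2
    · exact absurd (Finset.mem_filter.2 ⟨Finset.mem_univ _, h2⟩) hi
    · exact h2

end UB

end DKW
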