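import Pool.Agent.Lib.MP_f05b2f_co.UB.Rec

/-!
Lower bound for the number of meets and upper bounds for the pairs `L_σ(α)`, `R_σ(β)` in a
product of unequal chains.
-/

open Finset
open scoped FinsetFamily

namespace DKW

namespace UB

theorem lower {n : ℕ} {k : Fin n → ℕ} (A B : Finset (Box k)) :
    #A * #B ≤ (∏ i, k i) * #(A ⊼ B) := by
  classical
  have h1 := Finset.le_card_infs_mul_card_sups A B
  have h2 : #(A ⊻ B) ≤ ∏ i, k i := by
    rw [← card_box]
    exact Finset.card_le_univ _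
  calc #A * #B ≤ #(A ⊼ B) * #(A ⊻ B) := h1
    _ ≤ #(A ⊼ B) * ∏ i, k i := Nat.mul_le_mul_left _ h2
    _ = _ := mul_comm _ _

theorem lower_inter {n : ℕ} {k : Fin n → ℕ} {A B : Finset (Box k)} (hA : IsDown A)
    (hB : IsDown B) : #A * #B ≤ (∏ i, k i) * #(A ∩ B) :=
  (lower A B).trans (Nat.mul_le_mul_left _ (Finset.card_le_card (infs_subset_inter hA hB)))

theorem four_mul_le {N α : ℕ} (h : α ≤ N) : 4 * (α * (N - α)) ≤ N ^ 2 := by
  obtain ⟨b, rfl⟩ := Nat.exists_eq_add_of_le h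
  rw [Nat.add_sub_cancel_left]
  nlinarith [sq_nonneg ((α : ℤ) - b)]

/-- division for the first set -/
theorem divA {K m α : ℕ} (hm : 0 < m) (h : α ≤ K * m) :
    ∃ p s, p * m + s = α ∧ s < m ∧ p ≤ K ∧ (p = K → s = 0) := by
  obtain ⟨p, s, h1, h2⟩ : ∃ p s, p * m + s = α ∧ s < m :=
    ⟨α / m, α % m, Nat.div_add_mod' α m, Nat.mod_lt _ hm⟩
  refine ⟨p, s, h1, h2, ?_, ?_⟩
  · by_contra hcon
    have : (K + 1) * m ≤ p * m := Nat.mul_le_mul_right _ (by omega)
    nlinarith
  · rintro rfl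
    omega

/-- division for the second set -/
theorem divB {K m β : ℕ} (hK : 0 < K) (h : β ≤ K * m) :
    ∃ q r, q * K + r = β ∧ r < K ∧ q ≤ m ∧ (0 < r → q < m) := by
  obtain ⟨q, r, h1, h2⟩ : ∃ q r, q * K + r = β ∧ r < K :=
    ⟨β / K, β % K, Nat.div_add_mod' β K, Nat.mod_lt _ hK⟩
  refine ⟨q, r, h1, h2, ?_, ?_⟩
  · by_contra hcon
    have : (m + 1) * K ≤ q * K := Nat.mul_le_mul_right _ (by omega)
    nlinarith
  · intro h3
    by_contra hcon
    have : m * K ≤ q * K := Nat.mul_le_mul_right _ (by omega)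
    nlinarith

theorem step {n : ℕ} {k : Fin (n + 1) → ℕ} (hk : ∀ i, 0 < k i) {m C : ℕ}
    {σ : Equiv.Perm (Fin (n + 1))} (hm : ∏ j, k ((σ 0).succAbove j) = m)
    (IH : ∀ s q, s ≤ m → q ≤ m →
      4 * m * #(L (fun j => k ((σ 0).succAbove j)) (tail σ) s ∩ R _ (tail σ) q) ≤
        4 * (s * q) + m * C)
    (α β : ℕ) (hα : α ≤ k (σ 0) * m) (hβ : β ≤ k (σ 0) * m) :
    4 * (k (σ 0) * m) ^ 2 * #(L k σ α ∩ R k σ β) ≤ 4 * (k (σ 0) * m) * (α * β) +
        4 * k (σ 0) * (α * (k (σ 0) * m - α)) + (k (σ 0) * m) ^ 2 * C := by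
  classical
  have hm0 : 0 < m := by rw [← hm]; exact Finset.prod_pos fun j _ => hk _
  obtain ⟨p, s, hα2, hsm, hp, hp2⟩ := divA hm0 hα
  obtain ⟨q, r, hβ2, hrk, hq, hq2⟩ := divB (hk (σ 0)) hβ
  have hqd : q + (if p < r then 1 else 0) ≤ m := by
    split_ifs with h
    · have := hq2 (by omega)
      omega
    · omega
  have ht := IH s _ hsm.le hqd
  have hcard := inter_rec (k := k) (σ := σ) hm hsm.le hp hp2 hrk hq hq2
  rw [hα2, hβ2] at hcard
  rw [hcard]
  have hsub : ((k (σ 0) * m - α : ℕ) : ℤ) = (k (σ 0) : ℤ) * m - (p * m + s) := by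
    rw [Nat.cast_sub hα, ← hα2]
    push_cast
    ring
  obtain ⟨t, hT⟩ : ∃ t, t = #(L (fun j => k ((σ 0).succAbove j)) (tail σ) s ∩
    R _ (tail σ) (q + if p < r then 1 else 0)) := ⟨_, rfl⟩
  rw [← hT] at ht ⊢
  obtain ⟨d, hd⟩ : ∃ d : ℕ, d = if p < r then 1 else 0 := ⟨_, rfl⟩
  rw [← hd] at ht
  have h1 := step_ineq (k (σ 0)) m p s q r t C d (min p r) (by exact_mod_cast hk (σ 0))
    (by exact_mod_cast hm0) (by positivity) (by exact_mod_cast hsm) (by positivity)
    (by rw [← hα2] at hα; exact_mod_cast hα) (by positivity) (by exact_mod_cast ht) (by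
      rw [hd]
      by_cases hpr : p < r
      · left
        rw [if_pos hpr]
        refine ⟨by exact_mod_cast hpr, rfl, ?_⟩
        rw [min_eq_left]
        exact_mod_cast hpr.le
      · right
        rw [if_neg hpr]
        refine ⟨by exact_mod_cast not_lt.1 hpr, rfl, ?_⟩
        rw [min_eq_right]
        exact_mod_cast not_lt.1 hpr)
  rw [← hsub] at h1
  have h2 : (4 * (k (σ 0) * m) ^ 2 * ((p * q + min p r) + t) : ℕ) ≤
      (4 * (k (σ 0) * m) * ((p * m + s) * (q * k (σ 0) + r)) +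
        4 * k (σ 0) * ((p * m + s) * (k (σ 0) * m - α)) + (k (σ 0) * m) ^ 2 * C : ℕ) := by
    exact_mod_cast h1
  rw [hα2, hβ2] at h2
  exact h2

theorem plain : ∀ (n : ℕ) (k : Fin n → ℕ) (_ : ∀ i, 0 < k i) (σ : Equiv.Perm (Fin n)) (α β : ℕ),
    α ≤ ∏ i, k i → β ≤ ∏ i, k i →
      4 * (∏ i, k i) * #(L k σ α ∩ R k σ β) ≤ 4 * (α * β) + (∏ i, k i) * ∑ i, k i := by
  intro n
  induction n with
  | zero =>
    intro k _ σ α β hα hβ
    classical
    have hA : #(L k σ α) = α := card_initSeg (good_lex σ) (by rw [card_box]; exact hα)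
    have hB : #(R k σ β) = β := card_initSeg (good_rev σ) (by rw [card_box]; exact hβ)
    have h1 : #(L k σ α ∩ R k σ β) ≤ #(L k σ α) := Finset.card_le_card Finset.inter_subset_left
    have h2 : #(L k σ α ∩ R k σ β) ≤ #(R k σ β) := Finset.card_le_card Finset.inter_subset_right
    simp only [Finset.univ_eq_empty, Finset.prod_empty, Finset.sum_empty] at hα hβ ⊢
    rw [hA] at h1
    rw [hB] at h2
    generalize #(L k σ α ∩ R k σ β) = z at h1 h2 ⊢
    clear hA hB
    interval_cases α <;> interval_cases β <;> omega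
  | succ n IH =>
    intro k hk σ α β hα hβ
    have hprod : ∏ i, k i = k (σ 0) * ∏ j : Fin n, k ((σ 0).succAbove j) :=
      Fin.prod_univ_succAbove k (σ 0)
    have hsum : ∑ i, k i = k (σ 0) + ∑ j : Fin n, k ((σ 0).succAbove j) :=
      Fin.sum_univ_succAbove k (σ 0)
    have hN : 0 < ∏ i, k i := Finset.prod_pos fun i _ => hk i
    have h := step hk (σ := σ) rfl (fun s q hs hq => IH _ (fun i => hk _) (tail σ) s q hs hq) α β
      (hprod ▸ hα) (hprod ▸ hβ)
    rw [← hprod] at h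
    rw [hsum]
    have h4 := four_mul_le hα
    refine Nat.le_of_mul_le_mul_left ?_ hN
    calc (∏ i, k i) * (4 * (∏ i, k i) * #(L k σ α ∩ R k σ β))
        = 4 * (∏ i, k i) ^ 2 * #(L k σ α ∩ R k σ β) := by ring
      _ ≤ _ := h
      _ = 4 * (∏ i, k i) * (α * β) + k (σ 0) * (4 * (α * ((∏ i, k i) - α))) +
        (∏ i, k i) ^ 2 * ∑ j : Fin n, k ((σ 0).succAbove j) := by ring
      _ ≤ 4 * (∏ i, k i) * (α * β) + k (σ 0) * (∏ i, k i) ^ 2 +
        (∏ i, k i) ^ 2 * ∑ j : Fin n, k ((σ 0).succAbove j) := by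
          gcongr
      _ = _ := by ring

theorem sharp {n : ℕ} {k : Fin (n + 1) → ℕ} (hk : ∀ i, 0 < k i) (σ : Equiv.Perm (Fin (n + 1)))
    {α β : ℕ} (hα : α ≤ ∏ i, k i) (hβ : β ≤ ∏ i, k i) :
    4 * (∏ i, k i) ^ 2 * #(L k σ α ∩ R k σ β) ≤ 4 * (∏ i, k i) * (α * β) +
      4 * k (σ 0) * (α * ((∏ i, k i) - α)) +
        (∏ i, k i) ^ 2 * ∑ l ∈ univ.erase (σ 0), k l := by
  have hprod : ∏ i, k i = k (σ 0) * ∏ j : Fin n, k ((σ 0).succAbove j) :=
    Fin.prod_univ_succAbove k (σ 0)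
  have hsum : ∑ l ∈ univ.erase (σ 0), k l = ∑ j : Fin n, k ((σ 0).succAbove j) := by
    have h1 : ∑ l, k l = k (σ 0) + ∑ j : Fin n, k ((σ 0).succAbove j) :=
      Fin.sum_univ_succAbove k (σ 0)
    have h2 := Finset.add_sum_erase univ k (Finset.mem_univ (σ 0))
    omega
  have h := step hk (σ := σ) rfl (fun s q hs hq => plain _ _ (fun i => hk _) (tail σ) s q hs hq)
    α β (hprod ▸ hα) (hprod ▸ hβ)
  rw [← hprod] at h
  rw [hsum]
  exact h

theorem lexLT_rev {n : ℕ} {k : Fin n → ℕ} (σ : Equiv.Perm (Fin n)) :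
    lexLT (k := k) (Fin.revPerm.trans σ) = revLT σ := by
  funext x y
  refine propext ⟨?_, ?_⟩
  · rintro ⟨j, h1, h2⟩
    exact ⟨j.rev, fun j' hj' => at_eq (b := σ (Fin.revPerm j'.rev)) (by simp)
      (h1 j'.rev (by rw [Fin.rev_lt_iff]; exact hj')), h2⟩
  · rintro ⟨j, h1, h2⟩
    exact ⟨j.rev, fun j' hj' => h1 j'.rev (by rw [Fin.lt_rev_iff]; exact hj'),
      at_lt (a := σ (Fin.revPerm j.rev)) (by simp) h2⟩

theorem revLT_rev {n : ℕ} {k : Fin n → ℕ} (σ : Equiv.Perm (Fin n)) :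
    revLT (k := k) (Fin.revPerm.trans σ) = lexLT σ := by
  funext x y
  refine propext ⟨?_, ?_⟩
  · rintro ⟨j, h1, h2⟩
    exact ⟨j.rev, fun j' hj' => at_eq (b := σ (Fin.revPerm j'.rev)) (by simp)
      (h1 j'.rev (by rw [Fin.lt_rev_iff]; exact hj')), h2⟩
  · rintro ⟨j, h1, h2⟩
    exact ⟨j.rev, fun j' hj' => h1 j'.rev (by rw [Fin.rev_lt_iff]; exact hj'),
      at_lt (a := σ (Fin.revPerm j.rev)) (by simp) h2⟩

theorem sharp' {n : ℕ} {k : Fin (n + 1) → ℕ} (hk : ∀ i, 0 < k i) (σ : Equiv.Perm (Fin (n + 1)))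
    {α β : ℕ} (hα : α ≤ ∏ i, k i) (hβ : β ≤ ∏ i, k i) :
    4 * (∏ i, k i) ^ 2 * #(L k σ α ∩ R k σ β) ≤ 4 * (∏ i, k i) * (α * β) +
      4 * k (σ (Fin.last n)) * (β * ((∏ i, k i) - β)) +
        (∏ i, k i) ^ 2 * ∑ l ∈ univ.erase (σ (Fin.last n)), k l := by
  have h := sharp hk (Fin.revPerm.trans σ) hβ hα
  have h0 : (Fin.revPerm.trans σ) 0 = σ (Fin.last n) := by
    simp
  rw [h0, L, R, lexLT_rev, revLT_rev, Finset.inter_comm, mul_comm β α] at h
  exact h

/-- the equality case: if the chains read last have a product dividing `α` and the chains read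
first a product dividing `β`, then `|L ∩ R| = α β / |M|` -/
theorem prodcase : ∀ (n : ℕ) (k : Fin n → ℕ) (_ : ∀ i, 0 < k i) (σ : Equiv.Perm (Fin n))
    (j α β : ℕ), α ≤ ∏ i, k i → β ≤ ∏ i, k i →
    (∏ t : Fin n, if (t : ℕ) < j then 1 else k (σ t)) ∣ α →
    (∏ t : Fin n, if (t : ℕ) < j then k (σ t) else 1) ∣ β →
      (∏ i, k i) * #(L k σ α ∩ R k σ β) = α * β := by
  intro n
  induction n with
  | zero =>
    intro k hk σ j α β hα hβ _ _
    classical
    have hN : (∏ i, k i) = 1 := by simp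
    have hα' : α = 0 ∨ α = ∏ i, k i := by omega
    rcases hα' with rfl | rfl
    · rw [L, initSeg_zero]; simp
    · rw [L, initSeg_full (good_lex σ), Finset.univ_inter, R, card_initSeg (good_rev σ)]
      rw [card_box]; exact hβ
  | succ n IH =>
    intro k hk σ j α β hα hβ h1 h2
    classical
    have hprod : ∏ i, k i = k (σ 0) * ∏ j : Fin n, k ((σ 0).succAbove j) :=
      Fin.prod_univ_succAbove k (σ 0)
    rcases j with _ | j
    · have hN : ∏ i, k i ∣ α := by
        have : (∏ t : Fin (n + 1), if (t : ℕ) < 0 then 1 else k (σ t)) = ∏ i, k i := by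
          simp only [Nat.not_lt_zero, if_false]
          exact Equiv.prod_comp σ k
        rwa [this] at h1
      have hα' : α = 0 ∨ α = ∏ i, k i := by
        rcases Nat.eq_zero_or_pos α with h | h
        · exact Or.inl h
        · exact Or.inr (le_antisymm hα (Nat.le_of_dvd h hN))
      rcases hα' with rfl | rfl
      · rw [L, initSeg_zero]; simp
      · rw [L, initSeg_full (good_lex σ), Finset.univ_inter, R, card_initSeg (good_rev σ)]
        rw [card_box]; exact hβ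
    · obtain ⟨m, hm⟩ : ∃ m, m = ∏ j : Fin n, k ((σ 0).succAbove j) := ⟨_, rfl⟩
      have hm0 : 0 < m := by rw [hm]; exact Finset.prod_pos fun j _ => hk _
      rw [← hm] at hprod
      rw [Fin.prod_univ_succ] at h1 h2
      simp only [Fin.val_zero, Nat.zero_lt_succ, if_true, one_mul, Fin.val_succ,
        Nat.succ_lt_succ_iff] at h1 h2
      have e1 : (∏ t : Fin n, if (t : ℕ) < j then 1 else k (σ t.succ)) =
          ∏ t : Fin n, if (t : ℕ) < j then 1 else k ((σ 0).succAbove (tail σ t)) :=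
        Finset.prod_congr rfl fun t _ => by rw [tail_spec]
      have e2 : (∏ t : Fin n, if (t : ℕ) < j then k (σ t.succ) else 1) =
          ∏ t : Fin n, if (t : ℕ) < j then k ((σ 0).succAbove (tail σ t)) else 1 :=
        Finset.prod_congr rfl fun t _ => by rw [tail_spec]
      rw [e1] at h1
      rw [e2] at h2
      have hcompl : (∏ t : Fin n, if (t : ℕ) < j then 1 else k ((σ 0).succAbove (tail σ t))) *
          (∏ t : Fin n, if (t : ℕ) < j then k ((σ 0).succAbove (tail σ t)) else 1) = m := by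
        rw [← Finset.prod_mul_distrib, hm,
          ← Equiv.prod_comp (tail σ) (fun t => k ((σ 0).succAbove t))]
        refine Finset.prod_congr rfl fun t _ => ?_
        split_ifs <;> simp
      rw [hprod] at hα hβ
      obtain ⟨p, s, hα2, hsm, hp, hp2⟩ := divA hm0 hα
      obtain ⟨b, hb⟩ := dvd_trans (dvd_mul_right _ _) h2
      have hb' : b * k (σ 0) + 0 = β := by rw [hb]; ring
      have hbm : b ≤ m := by
        rw [hb] at hβ
        exact Nat.le_of_mul_le_mul_left hβ (hk _)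
      have hcard := inter_rec (k := k) (σ := σ) hm.symm hsm.le hp hp2 (r := 0) (hk _) hbm
        (fun h => absurd h (lt_irrefl 0))
      rw [hα2, hb'] at hcard
      have hs : (∏ t : Fin n, if (t : ℕ) < j then 1 else k ((σ 0).succAbove (tail σ t))) ∣ s := by
        rw [← hα2] at h1
        refine (Nat.dvd_add_right ?_).1 h1
        exact dvd_mul_of_dvd_right (hcompl ▸ dvd_mul_right _ _) _
      have hb2 : (∏ t : Fin n, if (t : ℕ) < j then k ((σ 0).succAbove (tail σ t)) else 1) ∣ b := by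
        rw [hb] at h2
        exact Nat.dvd_of_mul_dvd_mul_left (hk _) h2
      have h3 := IH (fun j => k ((σ 0).succAbove j)) (fun j => hk _) (tail σ) j s b
        (hm ▸ hsm.le) (hm ▸ hbm) hs hb2
      rw [← hm] at h3
      rw [hprod, hcard]
      simp only [Nat.not_lt_zero, if_false, add_zero, Nat.min_zero]
      calc k (σ 0) * m * (p * b + #(L (fun j => k ((σ 0).succAbove j)) (tail σ) s ∩
          R _ (tail σ) b)) = k (σ 0) * (p * m * b + m * #(L (fun j => k ((σ 0).succAbove j))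
            (tail σ) s ∩ R _ (tail σ) b)) := by ring
        _ = k (σ 0) * (p * m * b + s * b) := by rw [h3]
        _ = (p * m + s) * (k (σ 0) * b) := by ring
        _ = α * β := by rw [hα2, ← hb]

/-- a permutation reading the chains outside `S` first -/
theorem exists_perm {n : ℕ} (S : Finset (Fin n)) :
    ∃ (σ : Equiv.Perm (Fin n)) (j : ℕ), ∀ t : Fin n, (t : ℕ) < j ↔ σ t ∉ S := by
  classical
  have hj : Fintype.card {t : Fin n // (t : ℕ) < #Sᶜ} = Fintype.card {t : Fin n // t ∉ S} := by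
    rw [Fintype.card_subtype, Fin.card_filter_val_lt, Fintype.card_subtype,
      min_eq_right (by simpa using Finset.card_le_univ Sᶜ)]
    congr 1
    ext t
    simp
  refine ⟨(Fintype.equivOfCardEq hj).extendSubtype, #Sᶜ, fun t => ?_⟩
  constructor
  · intro ht
    exact (Fintype.equivOfCardEq hj).extendSubtype_mem t ht
  · intro ht
    by_contra hcon
    exact (Fintype.equivOfCardEq hj).extendSubtype_not_mem t hcon ht

theorem exists_of_dvd {n : ℕ} {k : Fin n → ℕ} (hk : ∀ i, 0 < k i) (S : Finset (Fin n)) {α β : ℕ}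
    (hα : α ≤ ∏ i, k i) (hβ : β ≤ ∏ i, k i) (h1 : ∏ i ∈ S, k i ∣ α) (h2 : ∏ i ∈ Sᶜ, k i ∣ β) :
    ∃ σ : Equiv.Perm (Fin n), (∏ i, k i) * #(L k σ α ∩ R k σ β) = α * β := by
  classical
  obtain ⟨σ, j, hσ⟩ := exists_perm S
  refine ⟨σ, prodcase n k hk σ j α β hα hβ ?_ ?_⟩
  · have : (∏ t : Fin n, if (t : ℕ) < j then 1 else k (σ t)) = ∏ i ∈ S, k i := by
      simp only [hσ]
      rw [Equiv.prod_comp σ (fun i => if i ∉ S then 1 else k i)]
      simp only [ite_not]
      rw [Finset.prod_ite_mem, Finset.univ_inter]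
    rw [this]
    exact h1
  · have : (∏ t : Fin n, if (t : ℕ) < j then k (σ t) else 1) = ∏ i ∈ Sᶜ, k i := by
      simp only [hσ]
      rw [Equiv.prod_comp σ (fun i => if i ∉ S then k i else 1)]
      simp only [← Finset.mem_compl]
      rw [Finset.prod_ite_mem, Finset.univ_inter]
    rw [this]
    exact h2

end UB

end DKW
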