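import Pool.Agent.Lib.MP_f05b2f_co.UB.Slice

/-!
Arithmetic of one step of the upper bound for the number of meets in a product of unequal chains.
-/

open Finset

namespace DKW

namespace UB

theorem sum_if_lt (K p c : ℕ) : ∑ j : Fin K, (if (j : ℕ) < p then c else 0) = min K p * c := by
  rw [← Finset.sum_filter, Finset.sum_const, Fin.card_filter_val_lt, smul_eq_mul]

theorem sum_if_eq (K p c : ℕ) :
    ∑ j : Fin K, (if (j : ℕ) = p then c else 0) = if p < K then c else 0 := by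
  by_cases h : p < K
  · rw [if_pos h]
    rw [Finset.sum_eq_single (⟨p, h⟩ : Fin K)]
    · simp
    · intro b _ hb
      rw [if_neg]
      intro hbp
      exact hb (Fin.ext hbp)
    · intro h1; exact absurd (Finset.mem_univ _) h1
  · rw [if_neg h]
    refine Finset.sum_eq_zero fun j _ => ?_
    rw [if_neg]
    have := j.isLt
    omega

theorem step_ineq (K m p s q r t C d μ : ℤ) (hK : 0 < K) (hm : 0 < m)
    (hs0 : 0 ≤ s) (hsm : s < m) (hr0 : 0 ≤ r) (ha : p * m + s ≤ K * m)
    (hp0 : 0 ≤ p) (ht : 4 * m * t ≤ 4 * (s * (q + d)) + m * C)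
    (hd : (p < r ∧ d = 1 ∧ μ = p) ∨ (r ≤ p ∧ d = 0 ∧ μ = r)) :
    4 * (K * m) ^ 2 * (p * q + μ + t) ≤ 4 * (K * m) * ((p * m + s) * (q * K + r)) +
      4 * K * ((p * m + s) * (K * m - (p * m + s))) + (K * m) ^ 2 * C := by
  have h1 : (K ^ 2 * m) * (4 * m * t) ≤ (K ^ 2 * m) * (4 * (s * (q + d)) + m * C) :=
    mul_le_mul_of_nonneg_left ht (by positivity)
  have key : K * m ^ 2 * μ + K * m * (s * d) ≤
      m * r * (p * m + s) + (p * m + s) * (K * m - (p * m + s)) := by
    rcases hd with ⟨h, hd1, hμ⟩ | ⟨h, hd1, hμ⟩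
    · rw [hd1, hμ]
      have h2 : p * m + s ≤ r * m := by nlinarith
      have h3 : 0 ≤ p * m + s := by positivity
      nlinarith [mul_nonneg h3 (sub_nonneg.2 h2)]
    · rw [hd1, hμ]
      have h2 : r * m ≤ p * m + s := by nlinarith
      nlinarith [mul_nonneg (sub_nonneg.2 h2) (sub_nonneg.2 ha)]
  nlinarith [mul_le_mul_of_nonneg_left key (by positivity : (0 : ℤ) ≤ 4 * K)]

end UB

end DKW
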